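import Pool.Agent.H9.Rec.Fam

/-!
# MP_127ef0_nt: maps of the class `G` with records far beyond the digit horizon

`U`, `InG` and `reps` are in `Pool.Agent.H9.Rec.Defs`.
-/

namespace Pool.Agent.Results.MP_127ef0_nt.Records

open Pool.Agent.H9.Rec

theorem result :
    (∀ (m d : ℤ) (r : ℤ → ℤ), InG m d r → ∀ (c : ℤ) (A : Finset ℤ), 2 ≤ A.card →
      (∀ a ∈ A, ∀ b ∈ A, (m - d) * c + (a - b) ∈ reps d r) →
      ∀ B : ℤ, (∀ a ∈ A, ∀ b ∈ A, a - b ≤ B) → B < m - d →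
        (∀ K : ℕ, 1 ≤ K → ∃ n : ℤ, c < n ∧ ((n : ℝ) - c) ≤ ((d : ℝ) / A.card) ^ K ∧
          (∀ k < K, ¬ d ∣ (U m d r)^[k] n) ∧
          ∀ k ≤ K, (1 - (B : ℝ) / (m - d)) * ((m : ℝ) / d) ^ k * ((n : ℝ) - c) ≤
            ((U m d r)^[k] n : ℝ) - c) ∧
        ∀ N : ℤ, ∃ n : ℤ, N ≤ n ∧ c < n ∧ ∃ k : ℕ, (∀ j < k, ¬ d ∣ (U m d r)^[j] n) ∧
          (1 - (B : ℝ) / (m - d)) * ((n : ℝ) - c) ^
            (1 + Real.log ((m : ℝ) / d) / Real.log ((d : ℝ) / A.card)) ≤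
            ((U m d r)^[k] n : ℝ) - c) ∧
    ∀ (m d : ℤ), Odd d → 5 ≤ d → d ^ 2 < m → IsCoprime m d →
      ∃ (r : ℤ → ℤ) (A : Finset ℤ) (B : ℤ), InG m d r ∧ 2 * (A.card : ℤ) + 1 = d ∧
        (∀ a ∈ A, ∀ b ∈ A, (m - d) * 1 + (a - b) ∈ reps d r) ∧
        (∀ a ∈ A, ∀ b ∈ A, a - b ≤ B) ∧ 2 * B ≤ m - d := by
  refine ⟨fun m d r h c A hA hAr B hB hBm => ⟨fun K hK => ?_, infinite_form h hA hAr hB hBm⟩,
    fun m d hodd hd5 hmd hco => family_data hodd hd5 hmd hco⟩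
  obtain ⟨a0, ha0⟩ : A.Nonempty := Finset.card_pos.1 (by omega)
  have hB0 : 0 ≤ B := by
    have := hB a0 ha0 a0 ha0
    rwa [sub_self] at this
  obtain ⟨x, hx1, hx2, hx3, hx4⟩ := real_form h (by omega) hA hAr hB hK
  have h1 : (((c + x : ℤ) : ℝ) - c) = x := by
    push_cast
    ring
  refine ⟨c + x, by omega, by rw [h1]; exact hx2, hx3, fun k hk => ?_⟩
  rw [h1]
  exact hx4 k hk

end Pool.Agent.Results.MP_127ef0_nt.Records
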